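import Mathlib
import Pool.Agent.Y279.BepsU

/-!
MP_1b7159_an, Q1.  A real Banach space with a normalised 1-unconditional basis, and a complex
Banach space, in which bounded bilinear forms on products of two closed subspaces extend to the
whole space with a uniform bound for the norm, and which do not have type 2.
-/

set_option autoImplicit false

namespace Pool.Agent.Results.MP_1b7159_an.UniformBepsNotType2

open Pool.Agent.Helper579.Beps Pool.Agent.Helper149.Beps Pool.Agent.Y279.BepsU

/-- The uniform bilinear extension property with constant `c`, for a normed space `X` over `𝕜`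
(`𝕜 = ℝ` or `ℂ`): for all closed subspaces `Y`, `Z` of `X`, every bilinear form on `Y × Z` bounded
by `b` extends to a bilinear form on `X × X` bounded by `c * b`. The case `Y = Z` gives (BEPS). -/
def UniformBEPS (𝕜 X : Type) [RCLike 𝕜] [NormedAddCommGroup X] [NormedSpace 𝕜 X] (c : ℝ) : Prop :=
  ∀ Y Z : Submodule 𝕜 X, IsClosed (Y : Set X) → IsClosed (Z : Set X) →
    ∀ (B : Y →ₗ[𝕜] Z →ₗ[𝕜] 𝕜) (b : ℝ), (∀ (y : Y) (z : Z), ‖B y z‖ ≤ b * ‖y‖ * ‖z‖) →
      ∃ B' : X →ₗ[𝕜] X →ₗ[𝕜] 𝕜, (∀ x z : X, ‖B' x z‖ ≤ c * |b| * ‖x‖ * ‖z‖) ∧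
        ∀ (y : Y) (z : Z), B' y z = B y z

/-- (Rademacher) type 2: the expectation over independent random signs is the average over all
sign patterns. -/
def HasType2 (X : Type) [NormedAddCommGroup X] : Prop :=
  ∃ C : ℝ, ∀ (n : ℕ) (x : Fin n → X),
    √((∑ ε : Fin n → Bool, ‖∑ i, (if ε i then x i else -x i)‖ ^ 2) / 2 ^ n)
      ≤ C * √(∑ i, ‖x i‖ ^ 2)

/-- A normalised 1-unconditional basis of a real normed space: unit vectors with dense linear
span, such that the norm of a finite linear combination does not decrease when the absolute values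
of the coefficients grow. -/
def IsUnconditionalBasis (X : Type) [NormedAddCommGroup X] [NormedSpace ℝ X] (e : ℕ → X) : Prop :=
  (∀ i, ‖e i‖ = 1) ∧ Dense (Submodule.span ℝ (Set.range e) : Set X) ∧
    ∀ (s t : Finset ℕ) (a b : ℕ → ℝ), s ⊆ t → (∀ i ∈ s, |a i| ≤ |b i|) →
      ‖∑ i ∈ s, a i • e i‖ ≤ ‖∑ i ∈ t, b i • e i‖

/-- **Main theorem.** There is a real Banach space with a normalised 1-unconditional basis, and
there is a complex Banach space, with the uniform bilinear extension property for pairs of closed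
subspaces, which do not have type 2. -/
theorem result :
    (∃ (X : Type) (_ : NormedAddCommGroup X) (_ : NormedSpace ℝ X) (_ : CompleteSpace X)
      (e : ℕ → X), IsUnconditionalBasis X e ∧ (∃ c : ℝ, UniformBEPS ℝ X c) ∧ ¬ HasType2 X) ∧
    (∃ (X : Type) (_ : NormedAddCommGroup X) (_ : NormedSpace ℂ X) (_ : CompleteSpace X),
      (∃ c : ℝ, UniformBEPS ℂ X c) ∧ ¬ HasType2 X) := by
  obtain ⟨X, i1, i2, i3, e, e1, e2, e3, h2, h4, h3⟩ := main_basis
  refine ⟨⟨X, i1, i2, i3, e, ⟨e1, e3, fun s t a b hst h => e2 s t hst a b h⟩,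
    ⟨861 * 861, ?_⟩, far_not_type2 h3⟩,
    ⟨XC X, inferInstance, inferInstance, inferInstance,
      ⟨2 * ((861 * 2) * (861 * 2)), ?_⟩, far_not_type2 (far_XC h3)⟩⟩
  · intro Y Z _ _ B b hB
    obtain ⟨B', hn, hB'⟩ := beps_of_qstar_bd 861 (by norm_num) h2 Y Z B |b| (abs_nonneg b)
      (fun y z => (hB y z).trans (by gcongr; exact le_abs_self b))
    refine ⟨(ContinuousLinearMap.coeLM ℝ).comp (B' : X →ₗ[ℝ] X →L[ℝ] ℝ), ?_, ?_⟩
    · intro x z
      refine (hn x z).trans (le_of_eq ?_)
      ring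
    · intro y z
      exact hB' y z
  · intro Y Z _ _ B b hB
    obtain ⟨B', hn, hB'⟩ := beps_complex_bd (861 * 2) (by norm_num)
      (qstar_XC2 (by norm_num) h4) Y Z B |b| (abs_nonneg b)
      (fun y z => (hB y z).trans (by gcongr; exact le_abs_self b))
    refine ⟨B', ?_, hB'⟩
    intro x z
    refine (hn x z).trans (le_of_eq ?_)
    ring

end Pool.Agent.Results.MP_1b7159_an.UniformBepsNotType2
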